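import Pool.Agent.L5helper29.OF.DefsB

/-!
# Bilinear forms killed by the good operators of trace zero
-/

set_option autoImplicit false
set_option linter.all false

namespace Pool.Agent.L5helper41.OF

open Matrix Module Finset Pool.Agent.L5helper73.CC Pool.Agent.L5helper29.OF

section

variable {K : Type} [Field K] [CharZero K] {Y : Type} [AddCommGroup Y] [Module K Y]
  [FiniteDimensional K Y] {I : Type} [Fintype I] [DecidableEq I] {ω : Y →ₗ[K] Y →ₗ[K] K}
  {P : I → Y →ₗ[K] Y} {st : I → I} {A : I → Finset K} {q : K}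
  {b : Basis (Σ i, {x // x ∈ A i}) K Y}

lemma sig_ext (c d : Σ i, {x // x ∈ A i}) (h1 : c.1 = d.1) (h2 : (c.2 : K) = d.2) : c = d := by
  obtain ⟨i, x, hx⟩ := c
  obtain ⟨j, y, hy⟩ := d
  simp only at h1
  subst h1
  simp only at h2
  subst h2
  rfl

lemma P_b (h : Dat ω P st) (hb : EigBasis ω P st A q b) (i : I) (a : Σ i, {x // x ∈ A i}) :
    P i (b a) = if a.1 = i then b a else 0 := by
  by_cases hi : a.1 = i
  · rw [if_pos hi, ← hi, hb.mem]
  · rw [if_neg hi, ← hb.mem a, h.or i a.1 (Ne.symm hi)]

lemma dl_dl (h : Dat ω P st) (hb : EigBasis ω P st A q b) (a : Σ i, {x // x ∈ A i}) :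
    dl st hb.dual (dl st hb.dual a) = a := by
  refine sig_ext _ _ (h.inv a.1) ?_
  show q / (q / (a.2 : K)) = a.2
  have h1 := hb.ne_zero a.1 a.2 a.2.2
  have h2 := hb.q_ne
  field_simp

lemma om_zero (hb : EigBasis ω P st A q b) (a c : Σ i, {x // x ∈ A i})
    (hc : c ≠ dl st hb.dual a) : ω (b a) (b c) = 0 := by
  by_contra hne
  obtain ⟨h1, h2⟩ := hb.orth a c hne
  apply hc
  refine sig_ext _ _ h1 ?_
  show (c.2 : K) = q / (a.2 : K)
  have h3 := hb.ne_zero a.1 a.2 a.2.2
  rw [eq_div_iff h3, mul_comm]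
  exact h2

lemma om_ne (h : Dat ω P st) (hb : EigBasis ω P st A q b) (a : Σ i, {x // x ∈ A i}) :
    ω (b a) (b (dl st hb.dual a)) ≠ 0 := by
  intro h0
  apply b.ne_zero a
  apply h.nd
  have h1 : ω (b a) = 0 := by
    refine b.ext fun c => ?_
    rw [LinearMap.zero_apply]
    by_cases hc : c = dl st hb.dual a
    · rw [hc, h0]
    · exact om_zero hb a c hc
  intro v
  rw [h1, LinearMap.zero_apply]

lemma om_ne' (h : Dat ω P st) (hb : EigBasis ω P st A q b) (a : Σ i, {x // x ∈ A i}) :
    ω (b (dl st hb.dual a)) (b a) ≠ 0 := by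
  rw [h.skew]
  exact neg_ne_zero.2 (om_ne h hb a)

lemma dl_ne (h : Dat ω P st) (hb : EigBasis ω P st A q b) (a : Σ i, {x // x ∈ A i}) :
    dl st hb.dual a ≠ a := by
  intro h1
  have := om_ne h hb a
  rw [h1] at this
  exact this (h.alt _)

lemma Rop_apply (x y z : Y) : Rop ω x y z = ω x z • y + ω y z • x := by
  simp [Rop]

lemma good_rop (h : Dat ω P st) {x y : Y} {i : I} (hx : P i x = x) (hy : P (st i) y = y) :
    Good ω P (Rop ω x y) := by
  have key1 : ∀ (j : I) (u : Y), ω x (P j u) • y = ω x u • P j y := by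
    intro j u
    by_cases hj : j = st i
    · subst hj
      rw [hy]
      congr 1
      rw [← h.adj, hx]
    · have h1 : P j y = 0 := by rw [← hy, h.or j (st i) hj]
      have h2 : ω x (P j u) = 0 := by
        rw [← hx, h.adj, h.or (st i) j (Ne.symm hj), map_zero]
      rw [h1, h2, zero_smul, smul_zero]
  have key2 : ∀ (j : I) (u : Y), ω y (P j u) • x = ω y u • P j x := by
    intro j u
    by_cases hj : j = i
    · subst hj
      rw [hx]
      congr 1
      have h3 := h.adj (st j) y u
      rw [h.inv, hy] at h3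
      exact h3.symm
    · have h1 : P j x = 0 := by rw [← hx, h.or j i hj]
      have h2 : ω y (P j u) = 0 := by
        rw [← hy, h.adj, h.inv, h.or i j (Ne.symm hj), map_zero]
      rw [h1, h2, zero_smul, smul_zero]
  refine ⟨fun j u => ?_, fun u v => ?_⟩
  · rw [Rop_apply, Rop_apply, key1, key2, map_add, map_smul, map_smul]
  · rw [Rop_apply, Rop_apply]
    simp only [map_add, map_smul, LinearMap.add_apply, LinearMap.smul_apply, smul_eq_mul]
    rw [h.skew u y, h.skew u x]
    ring

lemma tr_rop (x y : Y) (j : I) : tr P (Rop ω x y) j = ω x (P j y) + ω y (P j x) := by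
  unfold tr
  have e : Rop ω x y ∘ₗ P j = (ω x ∘ₗ P j).smulRight y + (ω y ∘ₗ P j).smulRight x := by
    refine LinearMap.ext fun z => ?_
    rw [LinearMap.comp_apply, Rop_apply]
    simp
  rw [e, map_add, LinearMap.trace_smulRight, LinearMap.trace_smulRight]
  rfl

lemma good_smul {X : Y →ₗ[K] Y} (hX : Good ω P X) (c : K) : Good ω P (c • X) := by
  refine ⟨fun j u => ?_, fun u v => ?_⟩
  · rw [LinearMap.smul_apply, LinearMap.smul_apply, hX.com, map_smul]
  · simp only [LinearMap.smul_apply, map_smul, smul_eq_mul, hX.skew]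
    ring

lemma good_sub {X X' : Y →ₗ[K] Y} (hX : Good ω P X) (hX' : Good ω P X') : Good ω P (X - X') := by
  refine ⟨fun j u => ?_, fun u v => ?_⟩
  · rw [LinearMap.sub_apply, LinearMap.sub_apply, hX.com, hX'.com, map_sub]
  · simp only [LinearMap.sub_apply, map_sub, hX.skew, hX'.skew]
    ring

/-- the diagonal operator -/
noncomputable def EE (hb : EigBasis ω P st A q b) (e : Σ i, {x // x ∈ A i}) : Y →ₗ[K] Y :=
  (ω (b (dl st hb.dual e)) (b e))⁻¹ • Rop ω (b e) (b (dl st hb.dual e))

open Classical in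
/-- the weight -/
noncomputable def wt (hb : EigBasis ω P st A q b) (e d : Σ i, {x // x ∈ A i}) : K :=
  (if d = e then 1 else 0) - (if d = dl st hb.dual e then 1 else 0)

lemma EE_b (h : Dat ω P st) (hb : EigBasis ω P st A q b) (e d : Σ i, {x // x ∈ A i}) :
    EE hb e (b d) = wt hb e d • b d := by
  classical
  unfold EE wt
  rw [LinearMap.smul_apply, Rop_apply]
  have hne := om_ne' h hb e
  by_cases h1 : d = e
  · subst h1
    rw [h.alt, zero_smul, zero_add, smul_smul, inv_mul_cancel₀ hne, if_pos rfl,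
      if_neg (Ne.symm (dl_ne h hb d)), sub_zero]
  · by_cases h2 : d = dl st hb.dual e
    · subst h2
      rw [h.alt, zero_smul, add_zero, smul_smul, if_neg h1, if_pos rfl]
      rw [h.skew (b e)]
      congr 1
      field_simp
      ring
    · rw [om_zero hb e d h2, om_zero hb (dl st hb.dual e) d (by rw [dl_dl h hb]; exact h1),
        if_neg h1, if_neg h2]
      simp

lemma good_EE (h : Dat ω P st) (hb : EigBasis ω P st A q b) (e : Σ i, {x // x ∈ A i}) :
    Good ω P (EE hb e) :=
  good_smul (good_rop h (hb.mem e) (hb.mem (dl st hb.dual e))) _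

lemma tr_EE (h : Dat ω P st) (hb : EigBasis ω P st A q b) (e : Σ i, {x // x ∈ A i}) (j : I) :
    tr P (EE hb e) j = (if e.1 = j then 1 else 0) - (if st e.1 = j then 1 else 0) := by
  have h0 : tr P (EE hb e) j = (ω (b (dl st hb.dual e)) (b e))⁻¹ *
      tr P (Rop ω (b e) (b (dl st hb.dual e))) j := by
    unfold tr EE
    rw [LinearMap.smul_comp, map_smul, smul_eq_mul]
  have hne := om_ne' h hb e
  rw [h0, tr_rop, P_b h hb, P_b h hb]
  have e1 : (dl st hb.dual e).1 = st e.1 := rfl
  rw [e1]
  have e2 : ω (b e) (b (dl st hb.dual e)) = -ω (b (dl st hb.dual e)) (b e) := h.skew _ _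
  by_cases h1 : e.1 = j <;> by_cases h2 : st e.1 = j
  · rw [if_pos h1, if_pos h2, if_pos h1, if_pos h2, e2]
    ring
  · rw [if_pos h1, if_neg h2, if_pos h1, if_neg h2, map_zero]
    field_simp
    ring
  · rw [if_neg h1, if_pos h2, if_neg h1, if_pos h2, map_zero, e2]
    field_simp
    ring
  · rw [if_neg h1, if_neg h2, if_neg h1, if_neg h2, map_zero, map_zero]
    ring

theorem tr_sub' (X X' : Y →ₗ[K] Y) (j : I) : tr P (X - X') j = tr P X j - tr P X' j := by
  unfold tr
  rw [LinearMap.sub_comp, map_sub]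

theorem bil_aux (h : Dat ω P st) (hb : EigBasis ω P st A q b)
    (hA : ∀ i, st i ≠ i → 3 ≤ (A i).card ∨ A i = ∅) (B : Y →ₗ[K] Y →ₗ[K] K)
    (hB : ∀ X, Good ω P X → (∀ i, tr P X i = 0) → ∀ x y, B (X x) y + B x (X y) = 0) :
    ∃ c : I → K, ∀ x y, B x y = ∑ i, c i * ω (P i x) y := by
  classical
  -- (1) vanishing
  have h1 : ∀ a d, d ≠ dl st hb.dual a → B (b a) (b d) = 0 := by
    intro a d hd
    by_cases hi : st a.1 = a.1
    · have e1 := hB (EE hb a) (good_EE h hb a) (fun j => by
        rw [tr_EE h hb, hi, sub_self]) (b a) (b d)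
      rw [EE_b h hb, EE_b h hb, map_smul, map_smul, LinearMap.smul_apply, smul_eq_mul, smul_eq_mul,
        ← add_mul] at e1
      refine (mul_eq_zero.1 e1).resolve_left ?_
      unfold wt
      rw [if_pos rfl, if_neg (Ne.symm (dl_ne h hb a)), if_neg hd]
      split_ifs
      · norm_num
      · norm_num
    · obtain ⟨f, hf1, hfa, hfd⟩ : ∃ f : Σ i, {x // x ∈ A i}, f.1 = a.1 ∧ f ≠ a ∧ f ≠ d := by
        have hc : 3 ≤ (A a.1).card := by
          rcases hA a.1 hi with h3 | h3
          · exact h3
          · exact absurd a.2.2 (by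
              intro h4
              exact (Finset.eq_empty_iff_forall_notMem.1 h3) _ h4)
        obtain ⟨x, hx, hx2⟩ : ∃ x ∈ A a.1, x ∉ ({(a.2 : K), (d.2 : K)} : Finset K) := by
          by_contra hcon
          push Not at hcon
          have h4 := Finset.card_le_card (show A a.1 ⊆ ({(a.2 : K), (d.2 : K)} : Finset K) from hcon)
          have h5 : #({(a.2 : K), (d.2 : K)} : Finset K) ≤ 2 := Finset.card_le_two
          omega
        rw [Finset.mem_insert, Finset.mem_singleton, not_or] at hx2
        refine ⟨⟨a.1, ⟨x, hx⟩⟩, rfl, ?_, ?_⟩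
        · intro h6
          apply hx2.1
          rw [← h6]
        · intro h6
          apply hx2.2
          rw [← h6]
      have e1 := hB (EE hb a - EE hb f) (good_sub (good_EE h hb a) (good_EE h hb f)) (fun j => by
        rw [tr_sub', tr_EE h hb, tr_EE h hb, hf1, sub_self]) (b a) (b d)
      rw [LinearMap.sub_apply, LinearMap.sub_apply, EE_b h hb, EE_b h hb, EE_b h hb, EE_b h hb,
        ← sub_smul, ← sub_smul, map_smul, map_smul, LinearMap.smul_apply, smul_eq_mul, smul_eq_mul,
        ← add_mul] at e1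
      refine (mul_eq_zero.1 e1).resolve_left ?_
      unfold wt
      have haf : a ≠ dl st hb.dual f := by
        intro h6
        have := congrArg Sigma.fst h6
        apply hi
        have h7 : (dl st hb.dual f).1 = st f.1 := rfl
        rw [h7, hf1] at this
        exact this.symm
      rw [if_pos rfl, if_neg (Ne.symm (dl_ne h hb a)), if_neg hd, if_neg (Ne.symm hfa), if_neg haf,
        if_neg (Ne.symm hfd)]
      split_ifs
      · norm_num
      · norm_num
      · norm_num
      · norm_num
  -- (2) proportionality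
  have h2 : ∀ a c, a.1 = c.1 → B (b a) (b (dl st hb.dual a)) * ω (b c) (b (dl st hb.dual c)) =
      B (b c) (b (dl st hb.dual c)) * ω (b a) (b (dl st hb.dual a)) := by
    intro a c hac
    by_cases hne : a = c
    · subst hne; rfl
    have hdlne : dl st hb.dual a ≠ dl st hb.dual c := by
      intro h3
      apply hne
      rw [← dl_dl h hb a, h3, dl_dl h hb]
    have g1 : Good ω P (Rop ω (b c) (b (dl st hb.dual a))) := by
      refine good_rop h (hb.mem c) ?_
      have := hb.mem (dl st hb.dual a)
      have h7 : (dl st hb.dual a).1 = st a.1 := rfl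
      rw [h7, hac] at this
      exact this
    have t1 : ∀ j, tr P (Rop ω (b c) (b (dl st hb.dual a))) j = 0 := by
      intro j
      rw [tr_rop, P_b h hb, P_b h hb]
      have z1 : ω (b c) (b (dl st hb.dual a)) = 0 := om_zero hb _ _ hdlne
      have z2 : ω (b (dl st hb.dual a)) (b c) = 0 := by rw [h.skew, z1, neg_zero]
      split_ifs <;> simp [z1, z2]
    by_cases hcs : c = dl st hb.dual a
    · -- `c` is dual to `a`
      have e1 := hB _ g1 t1 (b a) (b a)
      rw [Rop_apply, ← hcs] at e1
      have hc2 : dl st hb.dual c = a := by rw [hcs, dl_dl h hb]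
      rw [hc2, ← hcs]
      have e2 : ω (b a) (b c) = -ω (b c) (b a) := h.skew _ _
      have hne2 : ω (b c) (b a) ≠ 0 := by
        have := om_ne h hb c
        rwa [hc2] at this
      simp only [map_add, map_smul, LinearMap.add_apply, LinearMap.smul_apply, smul_eq_mul] at e1
      have e3 : B (b c) (b a) + B (b a) (b c) = 0 := by
        have : (2 * ω (b c) (b a)) * (B (b c) (b a) + B (b a) (b c)) = 0 := by
          linear_combination e1
        exact (mul_eq_zero.1 this).resolve_left (mul_ne_zero two_ne_zero hne2)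
      rw [e2]
      linear_combination ω (b c) (b a) * e3
    · have e1 := hB _ g1 t1 (b a) (b (dl st hb.dual c))
      have z1 : ω (b c) (b a) = 0 := by
        refine om_zero hb _ _ ?_
        intro h3
        apply hcs
        rw [h3, dl_dl h hb]
      have z2 : ω (b (dl st hb.dual a)) (b (dl st hb.dual c)) = 0 := by
        refine om_zero hb _ _ ?_
        rw [dl_dl h hb]
        intro h3
        apply hcs
        rw [← h3, dl_dl h hb]
      rw [Rop_apply, Rop_apply, z1, z2, zero_smul, zero_smul, zero_add, add_zero] at e1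
      simp only [map_smul, LinearMap.smul_apply, smul_eq_mul] at e1
      have e2 : ω (b (dl st hb.dual a)) (b a) = -ω (b a) (b (dl st hb.dual a)) := h.skew _ _
      rw [e2] at e1
      linear_combination e1
  -- the constants
  have h3 : ∃ c : I → K, ∀ a, B (b a) (b (dl st hb.dual a)) =
      c a.1 * ω (b a) (b (dl st hb.dual a)) := by
    refine ⟨fun i => if hi : ∃ a : Σ i, {x // x ∈ A i}, a.1 = i then
      B (b hi.choose) (b (dl st hb.dual hi.choose)) / ω (b hi.choose) (b (dl st hb.dual hi.choose))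
      else 0, fun a => ?_⟩
    have hi : ∃ a' : Σ i, {x // x ∈ A i}, a'.1 = a.1 := ⟨a, rfl⟩
    simp only [dif_pos hi]
    have h4 := h2 a hi.choose hi.choose_spec.symm
    have h5 := om_ne h hb hi.choose
    rw [div_mul_eq_mul_div, eq_div_iff h5]
    exact h4
  obtain ⟨c, hc⟩ := h3
  refine ⟨c, fun x y => ?_⟩
  have h4 : B = ∑ i, c i • (ω ∘ₗ P i) := by
    refine b.ext fun a => b.ext fun d => ?_
    simp only [LinearMap.sum_apply, LinearMap.smul_apply, LinearMap.comp_apply, smul_eq_mul]
    have h5 : ∀ i, c i * ω (P i (b a)) (b d) = if a.1 = i then c i * ω (b a) (b d) else 0 := by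
      intro i
      rw [P_b h hb]
      split_ifs
      · rfl
      · simp
    rw [Finset.sum_congr rfl fun i _ => h5 i, Finset.sum_ite_eq, if_pos (Finset.mem_univ _)]
    by_cases hd : d = dl st hb.dual a
    · rw [hd]
      exact hc a
    · rw [h1 a d hd, om_zero hb a d hd, mul_zero]
  rw [h4]
  simp only [LinearMap.sum_apply, LinearMap.smul_apply, LinearMap.comp_apply, smul_eq_mul]

end

/-- **Bilinear forms killed by the good operators of trace zero.** -/
theorem bil : St_BIL := by
  intro K _ _ Y _ _ _ I _ _ ω P st h A q b hb hA B hB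
  exact bil_aux h hb hA B hB

end Pool.Agent.L5helper41.OF
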